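import Pool.Agent.H68.L.R_seed8.Y703.CQ.Stm
import Pool.Agent.H68.L.R_seed8.Y703.CX.Asy

/-!
# Project CQ: the final asymptotics
-/

set_option autoImplicit false

open scoped Classical
open Finset Filter

namespace Pool.Agent.Y703.CQ

open Pool.Agent.Y703.CX (sm la jj XX eL zz kk S_SIE eL_tendsto logX_eq rpow_eL HH NN ev_eL one_le_exp
  HH_ge HH_le HH_pos kk_ge kk_le X_pos one_add_log lin_le kap zz_ge zz_pos kap_nonneg kap_pow kap_le)

/-- negligible with respect to the size of the class: `t` is the exponent -/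
def Sml (t : ℝ) (E : ℕ → ℝ) : Prop :=
  ∀ δ : ℝ, 0 < δ → ∀ᶠ X : ℕ in atTop, E X ≤ δ * (X * Real.exp (-t * eL X))

theorem sml_of {t : ℝ} {E : ℕ → ℝ} {C a : ℝ} (ha : t < a)
    (h : ∀ᶠ X : ℕ in atTop, E X ≤ C * (X * Real.exp (-a * eL X))) : Sml t E := by
  intro δ hδ
  have h1 : Tendsto (fun X : ℕ => |C| * Real.exp (-(a - t) * eL X)) atTop (nhds 0) := by
    have h2 : Tendsto (fun X : ℕ => -(a - t) * eL X) atTop atBot :=
      (eL_tendsto.const_mul_atTop_of_neg (by linarith))
    have h3 := (Real.tendsto_exp_atBot.comp h2).const_mul |C|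
    simpa using h3
  filter_upwards [h, h1.eventually (gt_mem_nhds hδ)] with X hX h2
  have e1 : Real.exp (-a * eL X) = Real.exp (-(a - t) * eL X) * Real.exp (-t * eL X) := by
    rw [← Real.exp_add]; congr 1; ring
  have hX0 : (0 : ℝ) ≤ X * Real.exp (-t * eL X) := by positivity
  calc E X ≤ C * (X * Real.exp (-a * eL X)) := hX
    _ ≤ |C| * (X * Real.exp (-a * eL X)) := by
        apply mul_le_mul_of_nonneg_right (le_abs_self C) (by positivity)
    _ = (|C| * Real.exp (-(a - t) * eL X)) * (X * Real.exp (-t * eL X)) := by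
        rw [e1]; ring
    _ ≤ δ * (X * Real.exp (-t * eL X)) := mul_le_mul_of_nonneg_right h2.le hX0

theorem sml_add {t : ℝ} {E F : ℕ → ℝ} (hE : Sml t E) (hF : Sml t F) : Sml t fun X => E X + F X := by
  intro δ hδ
  filter_upwards [hE (δ / 2) (by linarith), hF (δ / 2) (by linarith)] with X h1 h2
  have := add_le_add h1 h2
  linarith

/-- sets with many primes -/
theorem sml_many {I K : Finset ℕ} (hO : Ok I K) {t : ℝ} (ht : t < 1) (h : CntP) : Sml t fun X => (((SS I K X).filter fun S => kk X < S.card).card : ℝ) := by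
  apply sml_of (C := 2) (a := 1) ht
  filter_upwards [ev_eL 1] with X hX
  have h0 : 0 < eL X := by linarith
  have h1 := h.many I K X (kk X) hO (X_pos h0)
  have h2 : Real.exp (2 * eL X) ≤ 2 ^ kk X := by
    have e : (2 : ℝ) ^ kk X = Real.exp (kk X * Real.log 2) := by
      rw [mul_comm, Real.exp_mul, Real.exp_log (by norm_num), Real.rpow_natCast]
    rw [e]
    apply Real.exp_le_exp.2
    have h3 := kk_ge X
    have h4 := Real.log_two_gt_d9
    nlinarith
  have hX0 : (0 : ℝ) ≤ X := Nat.cast_nonneg _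
  have h5 : (((SS I K X).filter fun S => kk X < S.card).card : ℝ) * Real.exp (2 * eL X) ≤
      X * (2 * Real.exp (eL X)) := by
    calc _ ≤ (((SS I K X).filter fun S => kk X < S.card).card : ℝ) * 2 ^ kk X := by gcongr
      _ ≤ X * (1 + Real.log X) := h1
      _ ≤ _ := mul_le_mul_of_nonneg_left (one_add_log h0) hX0
  have h6 : (2 : ℝ) * (X * Real.exp (-1 * eL X)) * Real.exp (2 * eL X) = X * (2 * Real.exp (eL X)) := by
    have e : Real.exp (-1 * eL X) * Real.exp (2 * eL X) = Real.exp (eL X) := by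
      rw [← Real.exp_add]; congr 1; ring
    calc _ = 2 * X * (Real.exp (-1 * eL X) * Real.exp (2 * eL X)) := by ring
      _ = _ := by rw [e]; ring
  rw [← h6] at h5
  exact le_of_mul_le_mul_right h5 (Real.exp_pos _)

/-- sets near the boundary -/
theorem sml_cut {I K : Finset ℕ} (hO : Ok I K) {t : ℝ} (ht : t < 1) (h : CntP) : Sml t fun X => (((SS I K X).filter fun S => S.card ≤ kk X ∧
    X < (∏ p ∈ sm (zz X) S, p) * ∏ p ∈ la (zz X) S, XX (HH X) (jj (HH X) p)).card : ℝ) := by
  apply sml_of (C := 2) (a := 1) ht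
  have hlog : ∀ᶠ X : ℕ in atTop, Real.exp (eL X) ≤ X := by
    filter_upwards [ev_eL 1] with X hX
    rw [← logX_eq (by linarith)]
    exact (Real.log_le_sub_one_of_pos (by exact_mod_cast X_pos (by linarith))).trans (by linarith)
  filter_upwards [ev_eL 1, lin_le (a := 1) (b := 11) (by norm_num) (by norm_num), hlog] with X hX h11 hl
  have h0 : 0 < eL X := by linarith
  have h1 := h.cut I K X (zz X) (HH X) (kk X) hO (X_pos h0) (HH_pos h0)
  refine h1.trans ?_
  have hH := HH_ge h0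
  have hHp : (0 : ℝ) < HH X := lt_of_lt_of_le (Real.exp_pos _) hH
  have hX0 : (0 : ℝ) ≤ X := Nat.cast_nonneg _
  have h2 : (X : ℝ) * kk X / HH X ≤ X * Real.exp (-1 * eL X) := by
    rw [div_le_iff₀ hHp]
    calc (X : ℝ) * kk X ≤ X * Real.exp (eL X) := by
          have := kk_le hX
          rw [one_mul] at h11
          have : (kk X : ℝ) ≤ Real.exp (eL X) := by linarith
          gcongr
      _ ≤ X * (Real.exp (-1 * eL X) * Real.exp (3 * eL X)) := by
          rw [← Real.exp_add]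
          apply mul_le_mul_of_nonneg_left _ hX0
          apply Real.exp_le_exp.2
          linarith
      _ ≤ X * Real.exp (-1 * eL X) * HH X := by
          rw [mul_assoc]
          gcongr
  have h3 : (1 : ℝ) ≤ X * Real.exp (-1 * eL X) := by
    have e : Real.exp (eL X) * Real.exp (-1 * eL X) = 1 := by
      rw [← Real.exp_add]
      have : eL X + -1 * eL X = 0 := by ring
      rw [this, Real.exp_zero]
    calc (1 : ℝ) = Real.exp (eL X) * Real.exp (-1 * eL X) := e.symm
      _ ≤ X * Real.exp (-1 * eL X) := mul_le_mul_of_nonneg_right hl (Real.exp_pos _).le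
  linarith

/-- sets with two primes in one block -/
theorem sml_coll {I K : Finset ℕ} (hO : Ok I K) {t : ℝ} (ht : t < 1) (h : CntP) : Sml t fun X => (((SS I K X).filter fun S =>
    ¬ Set.InjOn (jj (HH X)) (la (zz X) S : Set ℕ)).card : ℝ) := by
  apply sml_of (C := 8) (a := 2) (by linarith)
  filter_upwards [ev_eL 1] with X hX
  have h0 : 0 < eL X := by linarith
  have h1 := h.coll I K X (zz X) (HH X) hO (X_pos h0) (HH_pos h0)
  refine h1.trans ?_
  have hH := HH_ge h0
  have hHp : (0 : ℝ) < HH X := lt_of_lt_of_le (Real.exp_pos _) hH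
  have hX0 : (0 : ℝ) ≤ X := Nat.cast_nonneg _
  rw [div_le_iff₀ hHp]
  calc 4 * (X : ℝ) * (1 + Real.log X) ≤ 4 * X * (2 * Real.exp (eL X)) := by
        have := one_add_log h0
        gcongr
    _ = 8 * (X * (Real.exp (-2 * eL X) * Real.exp (3 * eL X))) := by
        rw [← Real.exp_add]
        have : -2 * eL X + 3 * eL X = eL X := by ring
        rw [this]
        ring
    _ ≤ 8 * (X * (Real.exp (-2 * eL X) * HH X)) := by gcongr
    _ = 8 * (X * Real.exp (-2 * eL X)) * HH X := by ring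

theorem sml_rpow {E : ℕ → ℝ} {C a t : ℝ} {X₀ : ℕ} (ha : a < -t) (h : ∀ X : ℕ, X₀ ≤ X → E X ≤ C * X *
    (Real.log X) ^ (a : ℝ)) : Sml t E := by
  apply sml_of (C := C) (a := -a) (by linarith)
  filter_upwards [eventually_ge_atTop X₀, ev_eL 1] with X h1 h2
  have h3 := h X h1
  have e : a = -(-a) := by ring
  rw [e, rpow_eL (by linarith)] at h3
  rw [← mul_assoc]
  exact h3

/-- the main error term -/
theorem sml_main {C : ℝ} (hC : 1 ≤ C) {t : ℝ} (ht : t < 1) : Sml t fun X => (9 * (NN X : ℝ) + 9) ^ kk X *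
    (3 ^ (3 * kk X ^ 2) * kap C X) * (X * (1 + Real.log X)) := by
  apply sml_of (C := 4 * C) (a := 1) ht
  filter_upwards [ev_eL 5500] with X hX
  set l := eL X with hl
  have h0 : 0 < eL X := by linarith
  have h1 : 1 ≤ eL X := by linarith
  have hX0 : (0 : ℝ) ≤ X := Nat.cast_nonneg _
  have hN : 9 * (NN X : ℝ) + 9 ≤ Real.exp (5 * l) := by
    have h2 : (NN X : ℝ) ≤ HH X * Real.log X + 1 := by
      unfold NN
      push_cast
      have := Nat.floor_le (a := (HH X : ℝ) * Real.log X)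
        (mul_nonneg (Nat.cast_nonneg _) (Real.log_natCast_nonneg X))
      linarith
    have h3 : (HH X : ℝ) * Real.log X ≤ 2 * Real.exp (4 * l) := by
      rw [logX_eq h0]
      calc (HH X : ℝ) * Real.exp (eL X) ≤ 2 * Real.exp (3 * eL X) * Real.exp (eL X) :=
            mul_le_mul_of_nonneg_right (HH_le h0) (Real.exp_pos _).le
        _ = 2 * Real.exp (4 * l) := by
            rw [mul_assoc, ← Real.exp_add]
            congr 2
            rw [hl]
            ring
    have h4 : 1 ≤ Real.exp (4 * l) := one_le_exp (by linarith)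
    have h5 : (36 : ℝ) ≤ Real.exp l := by
      have := Real.add_one_le_exp l
      linarith
    have h6 : Real.exp (5 * l) = Real.exp (4 * l) * Real.exp l := by
      rw [← Real.exp_add]; congr 1; ring
    rw [h6]
    nlinarith
  have hkk := kk_le h1
  have hkk0 : (0 : ℝ) ≤ kk X := Nat.cast_nonneg _
  have hA : (9 * (NN X : ℝ) + 9) ^ kk X ≤ Real.exp (55 * l ^ 2) := by
    calc (9 * (NN X : ℝ) + 9) ^ kk X ≤ (Real.exp (5 * l)) ^ kk X := by gcongr
      _ = Real.exp (kk X * (5 * l)) := (Real.exp_nat_mul _ _).symm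
      _ ≤ Real.exp (55 * l ^ 2) := by
          apply Real.exp_le_exp.2
          nlinarith
  have hB : (3 : ℝ) ^ (3 * kk X ^ 2) ≤ Real.exp (400 * l ^ 2) := by
    have e : (3 : ℝ) ^ (3 * kk X ^ 2) = Real.exp ((3 * (kk X : ℝ) ^ 2) * Real.log 3) := by
      rw [mul_comm (3 * (kk X : ℝ) ^ 2) (Real.log 3), Real.exp_mul, Real.exp_log (by norm_num)]
      rw [← Real.rpow_natCast]
      congr 1
      push_cast
      ring
    rw [e]
    apply Real.exp_le_exp.2
    have h2 : Real.log 3 ≤ 1.1 := by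
      have h3 : (3 : ℝ) ≤ Real.exp 1.1 := by
        have h4 : (2.7182818283 : ℝ) < Real.exp 1 := Real.exp_one_gt_d9
        have h5 : (1.105 : ℝ) ≤ Real.exp 0.1 := by
          have := Real.quadratic_le_exp_of_nonneg (x := 0.1) (by norm_num)
          norm_num at this ⊢
          linarith
        have h6 : Real.exp 1.1 = Real.exp 1 * Real.exp 0.1 := by
          rw [← Real.exp_add]; norm_num
        rw [h6]
        nlinarith
      calc Real.log 3 ≤ Real.log (Real.exp 1.1) := Real.log_le_log (by norm_num) h3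
        _ = 1.1 := Real.log_exp _
    have h3 : (kk X : ℝ) ^ 2 ≤ 121 * l ^ 2 := by nlinarith
    have h4 : 0 ≤ (kk X : ℝ) ^ 2 := sq_nonneg _
    nlinarith [sq_nonneg l]
  have hK := kap_le hC h1
  have hLg := one_add_log h0
  have hmain : (9 * (NN X : ℝ) + 9) ^ kk X * (3 ^ (3 * kk X ^ 2) * kap C X) *
      (X * (1 + Real.log X)) ≤ Real.exp (55 * l ^ 2) * (Real.exp (400 * l ^ 2) *
        (2 * C * Real.exp (-l ^ 3 / 12))) * (X * (2 * Real.exp l)) := by
    have := kap_nonneg hC X
    have : 0 ≤ 1 + Real.log X := by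
      have := Real.log_natCast_nonneg X
      linarith
    gcongr
  refine hmain.trans ?_
  have e : Real.exp (55 * l ^ 2) * (Real.exp (400 * l ^ 2) *
        (2 * C * Real.exp (-l ^ 3 / 12))) * (X * (2 * Real.exp l)) =
      4 * C * (X * Real.exp (55 * l ^ 2 + 400 * l ^ 2 + -l ^ 3 / 12 + l)) := by
    rw [Real.exp_add, Real.exp_add, Real.exp_add]
    ring
  rw [e]
  have h9 : 55 * l ^ 2 + 400 * l ^ 2 + -l ^ 3 / 12 + l ≤ -1 * l := by
    have h10 : 5500 * l ^ 2 ≤ l ^ 3 := by
      have : l ^ 3 = l * l ^ 2 := by ring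
      rw [this]
      exact mul_le_mul_of_nonneg_right hX (sq_nonneg l)
    nlinarith
  have h11 := Real.exp_le_exp.2 h9
  have hC0 : (0 : ℝ) ≤ 4 * C := by linarith
  gcongr

/-- the sets outside the regular part -/
theorem out_sub (I K : Finset ℕ) (X z H k V : ℕ) :
    SS I K X \ ((RR I K X z H k V).filter fun S => Nd (sm z S) (la z S)) ⊆
      (((((SS I K X).filter fun S => k < S.card) ∪
      ((SS I K X).filter fun S => S.card ≤ k ∧
        X < (∏ p ∈ sm z S, p) * ∏ p ∈ la z S, XX H (jj H p))) ∪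
      ((SS I K X).filter fun S => ¬ Set.InjOn (jj H) (la z S : Set ℕ))) ∪
      ((SS I K X).filter fun S => ((la z S).filter fun p => p % 8 = 1).card ≤
        2 * (sm z S).card + V ∨ ∀ p ∈ la z S, p % 8 = 1)) ∪
      ((SS I K X).filter fun S => S.card ≤ k ∧ ¬ Nd (sm z S) (la z S)) := by
  intro S hS
  rw [Finset.mem_sdiff, Finset.mem_filter] at hS
  obtain ⟨h1, h2⟩ := hS
  simp only [mem_union, mem_filter]
  by_contra hc
  push Not at hc
  obtain ⟨⟨⟨⟨c1, c2⟩, c3⟩, c4⟩, c5⟩ := hc
  have d1 : S.card ≤ k := c1 h1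
  have d2 := c2 h1 d1
  have d3 := c3 h1
  have d4 := c4 h1
  have d5 := c5 h1 d1
  apply h2
  refine ⟨?_, d5⟩
  unfold RR
  rw [mem_filter]
  exact ⟨h1, d3, d1, d2, d4.1, d4.2⟩

/-- the comparison of the counts -/
theorem cmp (G : Finset ℕ → Prop) (T S : Finset (Finset ℕ)) (hTS : T ⊆ S) (c : ℝ) (hc0 : 0 ≤ c)
    (hc1 : c ≤ 1) :
    |((S.filter G).card : ℝ) - c * (S.card : ℝ)| ≤
      |((T.filter G).card : ℝ) - c * (T.card : ℝ)| + ((S \ T).card : ℝ) := by
  have e1 : ((S.filter G).card : ℝ) = (T.filter G).card + ((S \ T).filter G).card := by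
    rw [← Nat.cast_add, ← card_union_of_disjoint, ← filter_union, union_sdiff_of_subset hTS]
    exact disjoint_filter_filter (disjoint_sdiff)
  have e2 : (S.card : ℝ) = T.card + (S \ T).card := by
    rw [← Nat.cast_add, ← card_union_of_disjoint disjoint_sdiff, union_sdiff_of_subset hTS]
  have h1 : |(((S \ T).filter G).card : ℝ) - c * ((S \ T).card : ℝ)| ≤ ((S \ T).card : ℝ) := by
    have h2 : (((S \ T).filter G).card : ℝ) ≤ ((S \ T).card : ℝ) := by
      exact_mod_cast card_filter_le _ _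
    have h3 : (0 : ℝ) ≤ ((S \ T).card : ℝ) := Nat.cast_nonneg _
    exact Pool.Agent.Y703.CX.abs_sub_le_of (Nat.cast_nonneg _) h2 (mul_nonneg hc0 h3)
      (mul_le_of_le_one_left h3 hc1)
  have e3 : ((S.filter G).card : ℝ) - c * (S.card : ℝ) =
      (((T.filter G).card : ℝ) - c * (T.card : ℝ)) +
      ((((S \ T).filter G).card : ℝ) - c * ((S \ T).card : ℝ)) := by
    rw [e1, e2]; ring
  rw [e3]
  exact (abs_add_le _ _).trans (add_le_add le_rfl h1)

theorem dl_pos {I K : Finset ℕ} (hO : Ok I K) : 0 < dl I := by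
  unfold dl
  positivity

theorem dl_lt {I K : Finset ℕ} (hO : Ok I K) : dl I < 31 / 32 := by
  unfold dl
  rcases hO.1 with h | h
  · rw [h]; norm_num
  · rw [h]
    have : ({3, 5} : Finset ℕ).card = 2 := by decide
    rw [this]; norm_num

theorem t_DQ (h1 : S_BIL) (h3 : S_EQ) (h4 : S_LA) (h5 : S_BOX)
    (hK : S_KEY) (hC : CntP) (hS : S_SIE) (hH : S_HAL) (hB : S_BAD) (hF : S_FEW) (hM : S_MER)
    (hCh : S_CHE) (hLo : S_LOW) (hc2 : S_C2) : S_DQ := by
  obtain ⟨C, hC1, hkey⟩ := hK h1 h3 h4 h5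
  intro I K f hO
  obtain ⟨CB, XB, hbad⟩ := hB hS hH hM I K hO
  obtain ⟨c, X₀, hc, hlow⟩ := hLo hM hCh I K hO
  have hdp := dl_pos hO
  have hdl := dl_lt hO
  rw [Metric.tendsto_nhds]
  intro ε hε
  obtain ⟨V, hV⟩ := exists_pow_lt_of_lt_one (show (0 : ℝ) < ε / 4 by linarith)
    (show (1 / 2 : ℝ) < 1 by norm_num)
  obtain ⟨CF, XF, hfew⟩ := hF hS hM I K V hO
  have s1 := sml_many hO (t := 1 - dl I) (by linarith) hC
  have s2 := sml_cut hO (t := 1 - dl I) (by linarith) hC
  have s3 := sml_coll hO (t := 1 - dl I) (by linarith) hC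
  have s4 := sml_rpow (t := 1 - dl I) (by linarith) hfew
  have s5 := sml_rpow (t := 1 - dl I) (by linarith) hbad
  have s6 := sml_main hC1 (t := 1 - dl I) (by linarith)
  have s := sml_add (sml_add (sml_add (sml_add (sml_add s1 s2) s3) s4) s5) s6
  have hδ : (0 : ℝ) < c * ε / 4 := by positivity
  filter_upwards [s (c * ε / 4) hδ, ev_eL 1, eventually_ge_atTop X₀] with X hX hl hX0
  have hl0 : 0 < eL X := by linarith
  have hlo := hlow X hX0
  have e00 : (-1 + dl I : ℝ) = -(1 - dl I) := by ring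
  rw [e00, rpow_eL hl0] at hlo
  have hXp := X_pos hl0
  have hXp' : (0 : ℝ) < X := by exact_mod_cast hXp
  have hSpos : (0 : ℝ) < ((SS I K X).card : ℝ) := by
    refine lt_of_lt_of_le ?_ hlo
    positivity
  have hN : (HH X : ℝ) * Real.log X < NN X := by
    unfold NN
    push_cast
    exact Nat.lt_floor_add_one _
  have hmain := hkey I K f X (zz X) (HH X) (kk X) V (NN X) (kap C X) hO hXp (HH_pos hl0) (zz_pos hl)
    (kap_nonneg hC1 X) (kap_pow hC1 hl) hN
  set T := (RR I K X (zz X) (HH X) (kk X) V).filter fun S => Nd (sm (zz X) S) (la (zz X) S) with hT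
  have hTG : (RR I K X (zz X) (HH X) (kk X) V).filter
      (fun S => Nd (sm (zz X) S) (la (zz X) S) ∧ Gd f S) = T.filter (Gd f) := by
    rw [hT, filter_filter]
  rw [hTG] at hmain
  have hTS : T ⊆ SS I K X := (filter_subset _ _).trans (filter_subset _ _)
  have hRS : ((RR I K X (zz X) (HH X) (kk X) V).card : ℝ) ≤ ((SS I K X).card : ℝ) := by
    exact_mod_cast card_le_card (filter_subset _ _)
  have hcmp := cmp (Gd f) T (SS I K X) hTS c2 hc2.2.1.le hc2.2.2.1.le
  have hout : ((SS I K X \ T).card : ℝ) ≤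
      ((((SS I K X).filter fun S => kk X < S.card).card : ℝ) +
      (((SS I K X).filter fun S => S.card ≤ kk X ∧
        X < (∏ p ∈ sm (zz X) S, p) * ∏ p ∈ la (zz X) S, XX (HH X) (jj (HH X) p)).card : ℝ) +
      (((SS I K X).filter fun S => ¬ Set.InjOn (jj (HH X)) (la (zz X) S : Set ℕ)).card : ℝ) +
      (((SS I K X).filter fun S => ((la (zz X) S).filter fun p => p % 8 = 1).card ≤
        2 * (sm (zz X) S).card + V ∨ ∀ p ∈ la (zz X) S, p % 8 = 1).card : ℝ)) +
      (((SS I K X).filter fun S => S.card ≤ kk X ∧ ¬ Nd (sm (zz X) S) (la (zz X) S)).card : ℝ) := by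
    have g := card_le_card (out_sub I K X (zz X) (HH X) (kk X) V)
    rw [← hT] at g
    have g2 := (g.trans (card_union_le _ _)).trans (Nat.add_le_add_right ((card_union_le _ _).trans
      (Nat.add_le_add_right ((card_union_le _ _).trans
      (Nat.add_le_add_right (card_union_le _ _) _)) _)) _)
    exact_mod_cast g2
  have htot : |(((SS I K X).filter (Gd f)).card : ℝ) - c2 * ((SS I K X).card : ℝ)| ≤
      2 * (1 / 2 : ℝ) ^ V * ((SS I K X).card : ℝ) +
        c * ε / 4 * (X * Real.exp (-(1 - dl I) * eL X)) := by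
    have g1 : 2 * (1 / 2 : ℝ) ^ V * ((RR I K X (zz X) (HH X) (kk X) V).card : ℝ) ≤
        2 * (1 / 2 : ℝ) ^ V * ((SS I K X).card : ℝ) := mul_le_mul_of_nonneg_left hRS (by positivity)
    linarith
  rw [Real.dist_eq]
  have e3 : (((SS I K X).filter (Gd f)).card : ℝ) / ((SS I K X).card : ℝ) - c2 =
      ((((SS I K X).filter (Gd f)).card : ℝ) - c2 * ((SS I K X).card : ℝ)) /
        ((SS I K X).card : ℝ) := by
    field_simp
  rw [e3, abs_div, abs_of_pos hSpos, div_lt_iff₀ hSpos]
  refine lt_of_le_of_lt htot ?_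
  have g2 : c * ε / 4 * (X * Real.exp (-(1 - dl I) * eL X)) ≤ ε / 4 * ((SS I K X).card : ℝ) := by
    calc c * ε / 4 * (X * Real.exp (-(1 - dl I) * eL X)) =
          ε / 4 * (c * X * Real.exp (-(1 - dl I) * eL X)) := by ring
      _ ≤ _ := mul_le_mul_of_nonneg_left hlo (by linarith)
  have g3 : 2 * (1 / 2 : ℝ) ^ V * ((SS I K X).card : ℝ) ≤ 2 * (ε / 4) * ((SS I K X).card : ℝ) := by
    gcongr
  have g4 : 0 < ε * ((SS I K X).card : ℝ) := by positivity
  linarith

end Pool.Agent.Y703.CQ
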