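import Pool.Agent.H68.L.R_seed8.Y703.CQ.Stm

/-! CQ-KEY of helper703 (by helper302): the sum over the boxes (after `Pool.Agent.Y911.CX.KEY`). -/

set_option autoImplicit false

open scoped Classical

namespace Pool.Agent.Y703.CQ.K302

open Finset
open Pool.Agent.Y703.CX (sm la jj XX)
open Pool.Agent.Y703.CQ

/-- the class of a large prime -/
noncomputable def ph (H p : ℕ) : ℕ × ℕ := (jj H p, p % 8)

/-- the key of a set -/
noncomputable def ky (z H : ℕ) (S : Finset ℕ) : Finset ℕ × Finset (ℕ × ℕ) :=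
  (sm z S, (la z S).image (ph H))

/-- the keys which occur -/
structure KP (I K : Finset ℕ) (X z H k V : ℕ) (S₀ : Finset ℕ) (J : Finset (ℕ × ℕ)) : Prop where
  cl : ∀ q ∈ S₀, Sp q ∨ In I q
  le : ∀ q ∈ S₀, q ≤ z
  p5 : ((S₀.filter fun p => p % 8 = 5).card + (J.filter fun e => e.2 = 5).card) % 2 = 0
  p3 : ((S₀.filter fun p => p % 8 = 3).card + (J.filter fun e => e.2 = 3).card) % 2 ∈ K
  inj : Set.InjOn Prod.fst (J : Set (ℕ × ℕ))
  card : S₀.card + J.card ≤ k
  prod : (∏ p ∈ S₀, p) * ∏ e ∈ J, XX H e.1 ≤ X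
  few : 2 * S₀.card + V < (J.filter fun e => e.2 = 1).card
  ine : ∃ e ∈ J, e.2 ≠ 1

theorem le_XX {H p : ℕ} (hH : 1 ≤ H) (hp : 1 ≤ p) : p ≤ XX H (jj H p) := by
  unfold XX
  apply Nat.le_floor
  have hp0 : (0 : ℝ) < p := by exact_mod_cast hp
  have hH0 : (0 : ℝ) < H := by exact_mod_cast hH
  have h1 : (H : ℝ) * Real.log p < (jj H p : ℝ) + 1 := Nat.lt_floor_add_one _
  have h2 : Real.log p ≤ ((jj H p : ℝ) + 1) / H := by
    rw [le_div_iff₀ hH0]
    linarith
  calc (p : ℝ) = Real.exp (Real.log p) := (Real.exp_log hp0).symm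
    _ ≤ _ := Real.exp_le_exp.2 h2

theorem cl_prime {I : Finset ℕ} {q : ℕ} (h : Sp q ∨ In I q) : q.Prime := by
  rcases h with h | h
  · exact h.1
  · exact h.1

theorem cl_ne {I K : Finset ℕ} (hok : Ok I K) {q : ℕ} (h : Sp q ∨ In I q) : q ≠ 2 := by
  rintro rfl
  rcases h with h | h
  · have := h.2.1
    omega
  · have h3 := h.2.2.1
    rcases hok.1 with hI | hI <;> rw [hI] at h3 <;> simp at h3

theorem sm_la_card (z : ℕ) (S : Finset ℕ) : (sm z S).card + (la z S).card = S.card :=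
  Finset.card_filter_add_card_filter_not _

theorem sm_la_prod (z : ℕ) (S : Finset ℕ) : (∏ p ∈ sm z S, p) * ∏ p ∈ la z S, p = ∏ p ∈ S, p :=
  Finset.prod_filter_mul_prod_filter_not S (fun p => p ≤ z) fun p => p

theorem rr_iff {I K : Finset ℕ} {X z H k V : ℕ} (hH : 1 ≤ H) {S : Finset ℕ}
    (hS : ∀ q ∈ S, Sp q ∨ In I q)
    (hi : Set.InjOn (ph H) (la z S : Set ℕ)) :
    S ∈ RR I K X z H k V ↔ KP I K X z H k V (ky z H S).1 (ky z H S).2 := by
  set J := (la z S).image (ph H) with hJ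
  have hky : ky z H S = (sm z S, J) := rfl
  rw [hky]
  have f2 : J.card = (la z S).card := Finset.card_image_of_injOn hi
  have f3 : ∀ c, (J.filter fun e => e.2 = c).card =
      ((la z S).filter fun p => p % 8 = c).card := by
    intro c
    rw [hJ, Finset.filter_image, Finset.card_image_of_injOn]
    · rfl
    · intro a ha b hb hab
      exact hi (Finset.mem_coe.2 (Finset.mem_filter.1 (Finset.mem_coe.1 ha)).1)
        (Finset.mem_coe.2 (Finset.mem_filter.1 (Finset.mem_coe.1 hb)).1) hab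
  have f4 : ∀ c, (S.filter fun p => p % 8 = c).card = ((sm z S).filter fun p => p % 8 = c).card +
      ((la z S).filter fun p => p % 8 = c).card := by
    intro c
    rw [← sm_la_card z (S.filter fun p => p % 8 = c)]
    unfold sm la
    rw [Finset.filter_comm, Finset.filter_comm (fun p => p % 8 = c) (fun p => ¬ p ≤ z)]
  have f8 : ∏ e ∈ J, XX H e.1 = ∏ p ∈ la z S, XX H (jj H p) := by
    rw [hJ, Finset.prod_image hi]
    rfl
  have f9 : Set.InjOn (jj H) (la z S : Set ℕ) ↔ Set.InjOn Prod.fst (J : Set (ℕ × ℕ)) := by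
    constructor
    · intro h a ha b hb hab
      rw [Finset.mem_coe, hJ, Finset.mem_image] at ha hb
      obtain ⟨p, hp, rfl⟩ := ha
      obtain ⟨q, hq, rfl⟩ := hb
      rw [h (Finset.mem_coe.2 hp) (Finset.mem_coe.2 hq) hab]
    · intro h p hp q hq hpq
      exact hi hp hq (h (Finset.mem_coe.2 (Finset.mem_image_of_mem _ (Finset.mem_coe.1 hp)))
        (Finset.mem_coe.2 (Finset.mem_image_of_mem _ (Finset.mem_coe.1 hq))) hpq)
  have f10 : (∃ p ∈ la z S, p % 8 ≠ 1) ↔ ∃ e ∈ J, e.2 ≠ 1 := by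
    constructor
    · rintro ⟨p, hp, h⟩
      exact ⟨ph H p, Finset.mem_image_of_mem _ hp, h⟩
    · rintro ⟨e, he, h⟩
      rw [hJ, Finset.mem_image] at he
      obtain ⟨p, hp, rfl⟩ := he
      exact ⟨p, hp, h⟩
  have hsm : sm z S ⊆ S := Finset.filter_subset _ _
  have hla : la z S ⊆ S := Finset.filter_subset _ _
  constructor
  · intro h
    unfold RR at h
    rw [Finset.mem_filter] at h
    obtain ⟨h1, h2, h3, h4, h5, h5'⟩ := h
    unfold SS at h1
    rw [Finset.mem_filter] at h1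
    obtain ⟨-, ⟨h6, h7, h8⟩, h10⟩ := h1
    refine ⟨fun q hq => h6 q (hsm hq), fun q hq => (Finset.mem_filter.1 hq).2, ?_, ?_,
      f9.1 h2, ?_, ?_, ?_, f10.1 h5'⟩
    · rw [f3, ← f4]
      exact h7
    · rw [f3, ← f4]
      exact h8
    · rw [f2, sm_la_card]
      exact h3
    · rw [f8]
      exact h4
    · rw [f3]
      exact h5
  · rintro ⟨k1, k2, k4, k5, k7, k8, k9, k10, k11⟩
    have hprod : ∏ p ∈ S, p ≤ X := by
      rw [← sm_la_prod z S]
      refine le_trans (Nat.mul_le_mul_left _ ?_) k9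
      rw [f8]
      refine Finset.prod_le_prod' fun p hp => le_XX hH (cl_prime (hS p (hla hp))).one_le
    unfold RR SS
    rw [Finset.mem_filter, Finset.mem_filter, Finset.mem_powerset]
    refine ⟨⟨?_, ⟨hS, ?_, ?_⟩, hprod⟩, f9.2 k7, ?_, ?_, ?_, f10.2 k11⟩
    · intro q hq
      rw [Finset.mem_range]
      have h1 : q ∣ ∏ p ∈ S, p := Finset.dvd_prod_of_mem _ hq
      have h2 : 0 < ∏ p ∈ S, p := Finset.prod_pos fun p hp => (cl_prime (hS p hp)).pos
      have := Nat.le_of_dvd h2 h1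
      omega
    · rw [f4, ← f3]
      exact k4
    · rw [f4, ← f3]
      exact k5
    · rw [← sm_la_card z S, ← f2]
      exact k8
    · rw [← f8]
      exact k9
    · rw [← f3]
      exact k10

/-- the primes of a block -/
noncomputable def CC (I : Finset ℕ) (z H : ℕ) (e : ℕ × ℕ) : Finset ℕ :=
  (Icc 1 (XX H e.1)).filter fun p => (Sp p ∨ In I p) ∧ z < p ∧ ph H p = e

theorem mem_CC {I : Finset ℕ} {z H : ℕ} (hH : 1 ≤ H) {e : ℕ × ℕ} {p : ℕ} :
    p ∈ CC I z H e ↔ (Sp p ∨ In I p) ∧ z < p ∧ ph H p = e := by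
  unfold CC
  rw [Finset.mem_filter, Finset.mem_Icc]
  constructor
  · exact fun h => h.2
  · intro h
    refine ⟨⟨(cl_prime h.1).one_le, ?_⟩, h⟩
    have := le_XX hH (cl_prime h.1).one_le
    have h2 : jj H p = e.1 := congrArg Prod.fst h.2.2
    rw [h2] at this
    exact this

section fill
variable {I : Finset ℕ} {z H : ℕ} {S₀ : Finset ℕ} {J : Finset (ℕ × ℕ)} {p : J → ℕ}

theorem sm_fill (hH : 1 ≤ H) (h₀ : ∀ q ∈ S₀, q ≤ z) (hp : ∀ i : J, p i ∈ CC I z H i) :
    sm z (S₀ ∪ univ.image p) = S₀ := by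
  ext q
  unfold sm
  rw [Finset.mem_filter, Finset.mem_union, Finset.mem_image]
  constructor
  · rintro ⟨h | ⟨i, -, rfl⟩, h2⟩
    · exact h
    · have := ((mem_CC hH).1 (hp i)).2.1
      omega
  · exact fun h => ⟨Or.inl h, h₀ q h⟩

theorem la_fill (hH : 1 ≤ H) (h₀ : ∀ q ∈ S₀, q ≤ z) (hp : ∀ i : J, p i ∈ CC I z H i) :
    la z (S₀ ∪ univ.image p) = univ.image p := by
  ext q
  unfold la
  rw [Finset.mem_filter, Finset.mem_union, Finset.mem_image]
  constructor
  · rintro ⟨h | h, h2⟩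
    · exact absurd (h₀ q h) h2
    · exact h
  · rintro ⟨i, -, rfl⟩
    have := ((mem_CC hH).1 (hp i)).2.1
    exact ⟨Or.inr ⟨i, Finset.mem_univ _, rfl⟩, by omega⟩

theorem ph_fill (hH : 1 ≤ H) (hp : ∀ i : J, p i ∈ CC I z H i) (i : J) : ph H (p i) = i :=
  ((mem_CC hH).1 (hp i)).2.2

theorem im_fill (hH : 1 ≤ H) (hp : ∀ i : J, p i ∈ CC I z H i) :
    (univ.image p).image (ph H) = J := by
  ext k
  rw [Finset.mem_image]
  constructor
  · rintro ⟨q, hq, rfl⟩
    rw [Finset.mem_image] at hq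
    obtain ⟨i, -, rfl⟩ := hq
    rw [ph_fill hH hp]
    exact i.2
  · intro hk
    exact ⟨p ⟨k, hk⟩, Finset.mem_image_of_mem _ (Finset.mem_univ _), ph_fill hH hp ⟨k, hk⟩⟩

theorem ky_fill (hH : 1 ≤ H) (h₀ : ∀ q ∈ S₀, q ≤ z) (hp : ∀ i : J, p i ∈ CC I z H i) :
    ky z H (S₀ ∪ univ.image p) = (S₀, J) := by
  unfold ky
  rw [sm_fill hH h₀ hp, la_fill hH h₀ hp, im_fill hH hp]

theorem inj_fill (hH : 1 ≤ H) (h₀ : ∀ q ∈ S₀, q ≤ z) (hp : ∀ i : J, p i ∈ CC I z H i) :
    Set.InjOn (ph H) (la z (S₀ ∪ univ.image p) : Set ℕ) := by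
  rw [la_fill hH h₀ hp]
  intro a ha b hb hab
  rw [Finset.mem_coe, Finset.mem_image] at ha hb
  obtain ⟨i, -, rfl⟩ := ha
  obtain ⟨j, -, rfl⟩ := hb
  rw [ph_fill hH hp, ph_fill hH hp] at hab
  rw [Subtype.ext hab]

end fill

theorem rr_facts {I K : Finset ℕ} {X z H k V : ℕ} {S : Finset ℕ} (hS : S ∈ RR I K X z H k V) :
    (∀ q ∈ S, Sp q ∨ In I q) ∧ Set.InjOn (jj H) (la z S : Set ℕ) ∧ ∏ p ∈ S, p ≤ X := by
  unfold RR SS at hS
  rw [Finset.mem_filter, Finset.mem_filter] at hS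
  exact ⟨hS.1.2.1.1, hS.2.1, hS.1.2.2⟩

theorem inj_ph {H : ℕ} {A : Set ℕ} (h : Set.InjOn (jj H) A) : Set.InjOn (ph H) A :=
  fun _ ha _ hb hab => h ha hb (congrArg Prod.fst hab)

theorem key_bij {I K : Finset ℕ} {X z H k V : ℕ} (hH : 1 ≤ H) {S₀ : Finset ℕ}
    {J : Finset (ℕ × ℕ)}
    (hkey : KP I K X z H k V S₀ J) (P : Finset ℕ → Prop) [DecidablePred P] [DecidableEq J] :
    ((Fintype.piFinset fun i : J => CC I z H i).filter fun p => P (S₀ ∪ univ.image p)).card =
      ((RR I K X z H k V).filter fun S => ky z H S = (S₀, J) ∧ P S).card := by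
  have h₀ := hkey.le
  apply Finset.card_bij (fun (p : J → ℕ) _ => S₀ ∪ univ.image p)
  · intro p hp
    rw [Finset.mem_filter, Fintype.mem_piFinset] at hp
    obtain ⟨hp, hP⟩ := hp
    have hk := ky_fill hH h₀ hp
    rw [Finset.mem_filter]
    refine ⟨?_, hk, hP⟩
    rw [rr_iff hH _ (inj_fill hH h₀ hp), hk]
    · exact hkey
    · intro q hq
      rw [Finset.mem_union, Finset.mem_image] at hq
      rcases hq with hq | ⟨i, -, rfl⟩
      · exact hkey.cl q hq
      · exact ((mem_CC hH).1 (hp i)).1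
  · intro p hp p' hp' h
    rw [Finset.mem_filter, Fintype.mem_piFinset] at hp hp'
    have h1 := la_fill hH h₀ hp.1
    rw [h, la_fill hH h₀ hp'.1] at h1
    funext i
    have h2 : p i ∈ univ.image p' := by
      rw [h1]
      exact Finset.mem_image_of_mem _ (Finset.mem_univ _)
    rw [Finset.mem_image] at h2
    obtain ⟨j, -, hj⟩ := h2
    have h3 := ph_fill hH hp.1 i
    have h4 := ph_fill hH hp'.1 j
    rw [hj, h3] at h4
    rw [← hj, Subtype.ext h4]
  · intro S hS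
    rw [Finset.mem_filter] at hS
    obtain ⟨hSR, hSk, hSP⟩ := hS
    obtain ⟨hSO, hSI, -⟩ := rr_facts hSR
    have hk1 : sm z S = S₀ := congrArg Prod.fst hSk
    have hk2 : (la z S).image (ph H) = J := congrArg Prod.snd hSk
    have hex : ∀ i : J, ∃ q ∈ la z S, ph H q = i := by
      rintro ⟨i, hi⟩
      rw [← hk2, Finset.mem_image] at hi
      exact hi
    choose p hp1 hp2 using hex
    have him : univ.image p = la z S := by
      ext q
      rw [Finset.mem_image]
      constructor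
      · rintro ⟨i, -, rfl⟩
        exact hp1 i
      · intro hq
        have hjq : ph H q ∈ J := by
          rw [← hk2]
          exact Finset.mem_image_of_mem _ hq
        exact ⟨⟨ph H q, hjq⟩, Finset.mem_univ _, inj_ph hSI (Finset.mem_coe.2 (hp1 _))
          (Finset.mem_coe.2 hq) (hp2 ⟨ph H q, hjq⟩)⟩
    have hSe : S₀ ∪ univ.image p = S := by
      rw [him, ← hk1]
      unfold sm la
      exact Finset.filter_union_filter_not_eq _ _
    refine ⟨p, ?_, hSe⟩
    rw [Finset.mem_filter, Fintype.mem_piFinset, hSe]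
    refine ⟨fun i => (mem_CC hH).2 ⟨hSO _ (Finset.mem_filter.1 (hp1 i)).1,
      not_le.1 (Finset.mem_filter.1 (hp1 i)).2, hp2 i⟩, hSP⟩

theorem CC_facts {I : Finset ℕ} {z H : ℕ} (hH : 1 ≤ H) {e : ℕ × ℕ} {p : ℕ}
    (hp : p ∈ CC I z H e) :
    (Sp p ∨ In I p) ∧ z < p ∧ p ≤ XX H e.1 ∧ p % 8 = e.2 := by
  obtain ⟨h1, h2, h3⟩ := (mem_CC hH).1 hp
  refine ⟨h1, h2, ?_, congrArg Prod.snd h3⟩
  unfold CC at hp
  exact (Finset.mem_Icc.1 (Finset.mem_filter.1 hp).1).2

theorem CC_disj {I : Finset ℕ} {z H : ℕ} (hH : 1 ≤ H) {J : Finset (ℕ × ℕ)} (i l : J)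
    (hil : i ≠ l) : Disjoint (CC I z H i) (CC I z H l) := by
  rw [Finset.disjoint_left]
  intro p hp hp'
  have h5 := ((mem_CC hH).1 hp).2.2
  have h6 := ((mem_CC hH).1 hp').2.2
  exact hil (Subtype.ext (h5.symm.trans h6))

theorem root12 {x κ C A B z : ℝ} (_hx : 0 ≤ x) (hκ : 0 ≤ κ) (hA : 0 ≤ A) (hB : 0 ≤ B) (hz : 0 < z)
    (h : x ^ 12 * z ≤ C * (A * B) ^ 12) (hC : C ≤ κ ^ 12 * z) : x ≤ κ * (A * B) := by
  have h1 : x ^ 12 * z ≤ (κ * (A * B)) ^ 12 * z := by
    refine h.trans ?_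
    have h2 : 0 ≤ (A * B) ^ 12 := by positivity
    have h3 := mul_le_mul_of_nonneg_right hC h2
    refine h3.trans (le_of_eq ?_)
    ring
  have h2 : x ^ 12 ≤ (κ * (A * B)) ^ 12 := le_of_mul_le_mul_right h1 hz
  exact le_of_pow_le_pow_left₀ (by norm_num) (by positivity) h2

theorem hb_box {C₁ : ℝ} {I K : Finset ℕ} (hok : Ok I K)
    (h1 : ∀ (P Q : Finset ℕ) (A B z : ℕ) (c d : ℕ → ℂ),
      (∀ p ∈ P, p.Prime ∧ p % 8 = 1 ∧ p ≤ A) → (∀ q ∈ Q, q.Prime ∧ q ≠ 2 ∧ q ≤ B) →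
      Disjoint P Q → 1 ≤ z → z ≤ A → z ≤ B →
      (∀ p, ‖c p‖ ≤ 1) → (∀ q, ‖d q‖ ≤ 1) →
      ‖∑ p ∈ P, ∑ q ∈ Q, c p * d q * sg (nr p q)‖ ^ 12 * z ≤
        C₁ * ((A : ℝ) * B) ^ 12)
    {z H : ℕ} (hH : 1 ≤ H) (hz : 1 ≤ z) {κ : ℝ} (hκ : 0 ≤ κ) (hκ1 : C₁ ≤ κ ^ 12 * z)
    {J : Finset (ℕ × ℕ)} :
    HB (univ.filter fun e : J => e.1.2 = 1) (fun i : J => CC I z H i)
      (fun i => XX H i.1.1) κ := by
  intro i l hil hi c d hc hd
  show ‖∑ x ∈ CC I z H i, ∑ y ∈ CC I z H l, c x * d y * sg (nr x y)‖ ≤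
    κ * ((XX H i.1.1 : ℝ) * (XX H l.1.1 : ℝ))
  have hz0 : (0 : ℝ) < z := by exact_mod_cast hz
  have hk0 : (0 : ℝ) ≤ κ * ((XX H i.1.1 : ℝ) * (XX H l.1.1 : ℝ)) := by positivity
  rcases (CC I z H i).eq_empty_or_nonempty with he | ⟨p₀, hp₀⟩
  · rw [he, Finset.sum_empty, norm_zero]
    exact hk0
  rcases (CC I z H l).eq_empty_or_nonempty with he | ⟨q₀, hq₀⟩
  · rw [he]
    simp only [Finset.sum_empty, Finset.sum_const_zero, norm_zero]
    exact hk0
  have hzi : z ≤ XX H i.1.1 := by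
    have := CC_facts hH hp₀
    omega
  have hzl : z ≤ XX H l.1.1 := by
    have := CC_facts hH hq₀
    omega
  have hi1 : i.1.2 = 1 := (Finset.mem_filter.1 hi).2
  have h3 := h1 (CC I z H i) (CC I z H l) (XX H i.1.1) (XX H l.1.1) z c d
    (fun p hp => by
      obtain ⟨h3, -, h4, h5⟩ := CC_facts hH hp
      exact ⟨cl_prime h3, h5.trans hi1, h4⟩)
    (fun p hp => by
      obtain ⟨h3, -, h4, h5⟩ := CC_facts hH hp
      exact ⟨cl_prime h3, cl_ne hok h3, h4⟩)
    (CC_disj hH i l hil) hz hzi hzl hc hd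
  exact root12 (norm_nonneg _) hκ (Nat.cast_nonneg _) (Nat.cast_nonneg _) hz0 h3 hκ1

theorem box_dec (hBOX : S_BOX) (hEQ : S_EQ) (hLA : S_LA) (f : ℕ → ZMod 2) (ι : Type) [Fintype ι]
    [inst : DecidableEq ι] (lo : LinearOrder ι) (J1 : Finset ι)
    (C : ι → Finset ℕ) (X : ι → ℕ) (κ : ℝ) (S₀ : Finset ℕ) (h1 : 0 ≤ κ)
    (h2 : ∀ i, (C i).card ≤ X i) (h3 : HB J1 C X κ) (h4 : ∀ u ∈ S₀, u.Prime ∧ u ≠ 2)
    (h5 : ∀ i, ∀ p ∈ C i, p.Prime ∧ p ≠ 2 ∧ p ∉ S₀ ∧ (i ∈ J1 ↔ p % 8 = 1))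
    (h6 : ∀ i l, i ≠ l → Disjoint (C i) (C l)) (h7 : ∃ i, i ∉ J1) :
    |(((Fintype.piFinset C).filter fun p => Nd S₀ (univ.image p) ∧
        Gd f (S₀ ∪ univ.image p)).card : ℝ) -
      c2 * (((Fintype.piFinset C).filter fun p => Nd S₀ (univ.image p)).card : ℝ)| ≤
    2 * (4 ^ S₀.card / 2 ^ J1.card) *
      (((Fintype.piFinset C).filter fun p => Nd S₀ (univ.image p)).card : ℝ) +
    2 ^ ((2 * S₀.card + 1) * Fintype.card ι + (prs J1).card) * (κ * ∏ j, (X j : ℝ)) := by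
  have h := hBOX hEQ hLA f ι J1 C X κ S₀ h1 h2 h3 h4 h5 h6 h7
  have e : inst = fun a b => lo.toDecidableEq a b := Subsingleton.elim _ _
  subst e
  exact h

theorem prs_card {ι : Type} [Fintype ι] [LinearOrder ι] (J1 : Finset ι) :
    (prs J1).card ≤ Fintype.card ι * Fintype.card ι := by
  unfold prs
  refine (Finset.card_filter_le _ _).trans ?_
  rw [Finset.card_univ, Fintype.card_prod]

theorem per_key (hBOX : S_BOX) (hEQ : S_EQ) (hLA : S_LA) (f : ℕ → ZMod 2) {I K : Finset ℕ}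
    (hok : Ok I K) {X z H k V : ℕ} (hH : 1 ≤ H)
    {κ : ℝ} (hκ : 0 ≤ κ) {S₀ : Finset ℕ} {J : Finset (ℕ × ℕ)} (hk : KP I K X z H k V S₀ J)
    (hHB : HB (univ.filter fun e : J => e.1.2 = 1) (fun i : J => CC I z H i)
      (fun i => XX H i.1.1) κ) :
    |(((RR I K X z H k V).filter fun S => ky z H S = (S₀, J) ∧
        (Nd (sm z S) (la z S) ∧ Gd f S)).card : ℝ) -
      c2 * (((RR I K X z H k V).filter fun S => ky z H S = (S₀, J) ∧
        Nd (sm z S) (la z S)).card : ℝ)| ≤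
    2 * (1 / 2 : ℝ) ^ V *
        (((RR I K X z H k V).filter fun S => ky z H S = (S₀, J)).card : ℝ) +
      (3 ^ (3 * k ^ 2) * κ) * (X / ((∏ p ∈ S₀, p : ℕ) : ℝ)) := by
  set J1 : Finset J := univ.filter fun e : J => e.1.2 = 1 with hJ1
  have c1 : J1.card = (J.filter fun e => e.2 = 1).card := by
    rw [hJ1, ← Finset.card_map (Function.Embedding.subtype (· ∈ J))]
    congr 1
    ext x
    simp only [Finset.mem_map, Finset.mem_filter, Finset.mem_univ, true_and,
      Function.Embedding.coe_subtype]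
    constructor
    · rintro ⟨u, hu, rfl⟩
      exact ⟨u.2, hu⟩
    · rintro ⟨h, h'⟩
      exact ⟨⟨x, h⟩, h', rfl⟩
  have hfew : 2 * S₀.card + V < J1.card := by
    rw [c1]
    exact hk.few
  have hinj : Function.Injective (fun i : J => i.1.1) := by
    intro a b hab
    exact Subtype.ext (hk.inj (Finset.mem_coe.2 a.2) (Finset.mem_coe.2 b.2) hab)
  let lo : LinearOrder J := LinearOrder.lift' (fun i : J => i.1.1) hinj
  have hbox := box_dec hBOX hEQ hLA f J lo J1 (fun i => CC I z H i) (fun i => XX H i.1.1) κ S₀ hκ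
    (fun i => by
      refine (Finset.card_filter_le _ _).trans ?_
      rw [Nat.card_Icc]
      omega)
    hHB (fun u hu => ⟨cl_prime (hk.cl u hu), cl_ne hok (hk.cl u hu)⟩)
    (fun i p hp => by
      obtain ⟨h3, h3', h4, h5⟩ := CC_facts hH hp
      refine ⟨cl_prime h3, cl_ne hok h3, fun h => ?_, ?_⟩
      · have := hk.le p h
        omega
      · rw [hJ1, Finset.mem_filter, h5]
        simp)
    (fun i l hil => CC_disj hH i l hil)
    (by
      obtain ⟨e, he, h1⟩ := hk.ine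
      exact ⟨⟨e, he⟩, fun h => h1 (Finset.mem_filter.1 h).2⟩)
  have e1 : ((Fintype.piFinset fun i : J => CC I z H i).filter fun p => Nd S₀ (univ.image p) ∧
      Gd f (S₀ ∪ univ.image p)).card = ((RR I K X z H k V).filter fun S => ky z H S = (S₀, J) ∧
        (Nd (sm z S) (la z S) ∧ Gd f S)).card := by
    rw [← key_bij hH hk (fun S => Nd (sm z S) (la z S) ∧ Gd f S)]
    congr 1
    refine Finset.filter_congr fun p hp => ?_
    rw [Fintype.mem_piFinset] at hp
    rw [sm_fill hH hk.le hp, la_fill hH hk.le hp]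
  have e2 : ((Fintype.piFinset fun i : J => CC I z H i).filter fun p =>
      Nd S₀ (univ.image p)).card = ((RR I K X z H k V).filter fun S => ky z H S = (S₀, J) ∧
        Nd (sm z S) (la z S)).card := by
    rw [← key_bij hH hk (fun S => Nd (sm z S) (la z S))]
    congr 1
    refine Finset.filter_congr fun p hp => ?_
    rw [Fintype.mem_piFinset] at hp
    rw [sm_fill hH hk.le hp, la_fill hH hk.le hp]
  rw [e1, e2] at hbox
  refine hbox.trans (add_le_add ?_ ?_)
  · have h3 : ((4 : ℝ) ^ S₀.card / 2 ^ J1.card) ≤ (1 / 2) ^ V := by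
      rw [div_le_iff₀ (by positivity)]
      have h4 : (2 : ℝ) ^ (2 * S₀.card + V) ≤ 2 ^ J1.card :=
        pow_le_pow_right₀ (by norm_num) hfew.le
      have h5 : (1 / 2 : ℝ) ^ V * 2 ^ (2 * S₀.card + V) = 4 ^ S₀.card := by
        rw [pow_add, mul_comm, mul_assoc, ← mul_pow, pow_mul]
        norm_num
      calc (4 : ℝ) ^ S₀.card = (1 / 2 : ℝ) ^ V * 2 ^ (2 * S₀.card + V) := h5.symm
        _ ≤ _ := by gcongr
    have h4 : (((RR I K X z H k V).filter fun S => ky z H S = (S₀, J) ∧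
        Nd (sm z S) (la z S)).card : ℝ) ≤
        (((RR I K X z H k V).filter fun S => ky z H S = (S₀, J)).card : ℝ) := by
      have : (RR I K X z H k V).filter (fun S => ky z H S = (S₀, J) ∧ Nd (sm z S) (la z S)) ⊆
          (RR I K X z H k V).filter fun S => ky z H S = (S₀, J) := by
        intro S hS
        rw [Finset.mem_filter] at hS ⊢
        exact ⟨hS.1, hS.2.1⟩
      exact_mod_cast Finset.card_le_card this
    gcongr
  · have hcJ : Fintype.card J = J.card := Fintype.card_coe J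
    have hcard := hk.card
    have hJK : J.card ≤ k := by omega
    have hSK : S₀.card ≤ k := by omega
    obtain ⟨m, hm⟩ : ∃ m : ℕ, m = (@prs J _ lo J1).card := ⟨_, rfl⟩
    have hpr : m ≤ k * k := by
      rw [hm]
      refine (@prs_card J _ lo J1).trans ?_
      rw [hcJ]
      exact Nat.mul_le_mul hJK hJK
    rw [← hm]
    have h5 : (2 : ℝ) ^ ((2 * S₀.card + 1) * Fintype.card J + m) ≤ 3 ^ (3 * k ^ 2) := by
      rcases Nat.eq_zero_or_pos k with hk0 | hk0
      · have h6 : J.card = 0 := by omega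
        have h7 : m = 0 := by
          rw [hk0] at hpr
          omega
        rw [hcJ, h6, h7]
        simp [hk0]
      · have hexp : (2 * S₀.card + 1) * Fintype.card J + m ≤ 4 * k ^ 2 := by
          rw [hcJ]
          have h6 : S₀.card * J.card ≤ k * k := Nat.mul_le_mul hSK hJK
          have h7 : k ≤ k * k := Nat.le_mul_of_pos_left k hk0
          calc (2 * S₀.card + 1) * J.card + m = 2 * (S₀.card * J.card) + J.card + m := by ring
            _ ≤ 2 * (k * k) + k * k + k * k := by omega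
            _ = 4 * k ^ 2 := by ring
        calc (2 : ℝ) ^ ((2 * S₀.card + 1) * Fintype.card J + m) ≤ 2 ^ (4 * k ^ 2) :=
              pow_le_pow_right₀ (by norm_num) hexp
          _ = (16 : ℝ) ^ (k ^ 2) := by rw [pow_mul]; norm_num
          _ ≤ (27 : ℝ) ^ (k ^ 2) := by
              apply pow_le_pow_left₀ <;> norm_num
          _ = 3 ^ (3 * k ^ 2) := by rw [pow_mul]; norm_num
    have hN0 : (0 : ℝ) < ((∏ p ∈ S₀, p : ℕ) : ℝ) := by
      exact_mod_cast Finset.prod_pos fun p hp => (cl_prime (hk.cl p hp)).pos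
    have hprod : ∏ j : J, (XX H j.1.1 : ℝ) ≤ X / ((∏ p ∈ S₀, p : ℕ) : ℝ) := by
      have h5 : ∏ j : J, (XX H j.1.1 : ℝ) = ((∏ k ∈ J, XX H k.1 : ℕ) : ℝ) := by
        rw [← Finset.prod_coe_sort J (fun k => XX H k.1)]
        push_cast
        rfl
      rw [h5, le_div_iff₀ hN0, mul_comm]
      exact_mod_cast hk.prod
    calc (2 : ℝ) ^ ((2 * S₀.card + 1) * Fintype.card J + m) *
        (κ * ∏ j : J, (XX H j.1.1 : ℝ)) ≤
        3 ^ (3 * k ^ 2) * (κ * (X / ((∏ p ∈ S₀, p : ℕ) : ℝ))) := by gcongr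
      _ = _ := by ring

theorem card_sub {α : Type} [DecidableEq α] (A : Finset α) (K : ℕ) :
    (A.powerset.filter fun J => J.card ≤ K).card ≤ (A.card + 1) ^ K := by
  induction K with
  | zero =>
    have : A.powerset.filter (fun J => J.card ≤ 0) ⊆ {∅} := by
      intro J hJ
      rw [Finset.mem_filter, Nat.le_zero, Finset.card_eq_zero] at hJ
      rw [hJ.2]
      exact Finset.mem_singleton_self _
    exact Finset.card_le_card this
  | succ K ih =>
    set P := A.powerset.filter fun J => J.card ≤ K with hP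
    have h1 : A.powerset.filter (fun J => J.card ≤ K + 1) ⊆
        P ∪ (A ×ˢ P).image fun t => insert t.1 t.2 := by
      intro J hJ
      rw [Finset.mem_filter, Finset.mem_powerset] at hJ
      rw [Finset.mem_union]
      rcases J.eq_empty_or_nonempty with h | ⟨x, hx⟩
      · left
        rw [hP, Finset.mem_filter, Finset.mem_powerset, h]
        exact ⟨Finset.empty_subset _, by simp⟩
      · right
        rw [Finset.mem_image]
        refine ⟨(x, J.erase x), ?_, Finset.insert_erase hx⟩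
        rw [Finset.mem_product, hP, Finset.mem_filter, Finset.mem_powerset]
        refine ⟨hJ.1 hx, (Finset.erase_subset _ _).trans hJ.1, ?_⟩
        rw [Finset.card_erase_of_mem hx]
        omega
    refine (Finset.card_le_card h1).trans ((Finset.card_union_le _ _).trans ?_)
    have h2 : ((A ×ˢ P).image fun t => insert t.1 t.2).card ≤ A.card * P.card := by
      refine Finset.card_image_le.trans ?_
      rw [Finset.card_product]
    rw [pow_succ]
    nlinarith

/-- the sets of primes with product at most `X` -/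
noncomputable def TT (X : ℕ) : Finset (Finset ℕ) :=
  (range (X + 1)).powerset.filter fun S => (∀ q ∈ S, q.Prime) ∧ ∏ p ∈ S, p ≤ X

theorem mem_TT {X : ℕ} {S : Finset ℕ} (h : ∀ q ∈ S, q.Prime) (hX : ∏ p ∈ S, p ≤ X) :
    S ∈ TT X := by
  unfold TT
  rw [Finset.mem_filter, Finset.mem_powerset]
  refine ⟨fun q hq => ?_, h, hX⟩
  rw [Finset.mem_range]
  have h1 : q ∣ ∏ p ∈ S, p := Finset.dvd_prod_of_mem _ hq
  have h2 : 0 < ∏ p ∈ S, p := Finset.prod_pos fun p hp => (h p hp).pos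
  have := Nat.le_of_dvd h2 h1
  omega

theorem harm_TT (X : ℕ) : ∑ S ∈ TT X, (1 : ℝ) / ((∏ p ∈ S, p : ℕ) : ℝ) ≤ 1 + Real.log X := by
  have h1 : ∑ S ∈ TT X, (1 : ℝ) / ((∏ p ∈ S, p : ℕ) : ℝ) =
      ∑ n ∈ (TT X).image (fun S => ∏ p ∈ S, p), (1 : ℝ) / (n : ℝ) := by
    rw [Finset.sum_image]
    intro S hS T hT h
    unfold TT at hS hT
    rw [Finset.mem_coe, Finset.mem_filter] at hS hT
    rw [← Nat.primeFactors_prod hS.2.1, ← Nat.primeFactors_prod hT.2.1]
    exact congrArg _ h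
  have h2 : (TT X).image (fun S => ∏ p ∈ S, p) ⊆ Icc 1 X := by
    intro n hn
    rw [Finset.mem_image] at hn
    obtain ⟨S, hS, rfl⟩ := hn
    unfold TT at hS
    rw [Finset.mem_filter] at hS
    rw [Finset.mem_Icc]
    exact ⟨Finset.prod_pos fun p hp => (hS.2.1 p hp).pos, hS.2.2⟩
  rw [h1]
  refine (Finset.sum_le_sum_of_subset_of_nonneg h2 fun _ _ _ => by positivity).trans ?_
  have h3 := harmonic_le_one_add_log X
  rw [harmonic_eq_sum_Icc] at h3
  push_cast at h3
  refine le_trans (le_of_eq ?_) h3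
  refine Finset.sum_congr rfl fun n _ => ?_
  rw [one_div]

/-- **CQ-KEY.** -/
theorem t_KEY : S_KEY := by
  intro hB1 hEQ hLA hBOX
  obtain ⟨C₁, hC₁, h1⟩ := hB1
  refine ⟨C₁, hC₁, ?_⟩
  intro I K f X z H k V N κ hok hX hH hz hκ hκz hN
  set T := (RR I K X z H k V).image (ky z H) with hT
  set B : ℝ := 3 ^ (3 * k ^ 2) * κ with hB
  have hB0 : 0 ≤ B := by positivity
  have hfib : ∀ (P : Finset ℕ → Prop) [DecidablePred P],
      (((RR I K X z H k V).filter fun S => P S).card : ℝ) =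
      ∑ e ∈ T, (((RR I K X z H k V).filter fun S => ky z H S = e ∧ P S).card : ℝ) := by
    intro P _
    rw [Finset.card_eq_sum_card_fiberwise (f := ky z H) (t := T) (by
      intro S hS
      rw [Finset.mem_coe, Finset.mem_filter] at hS
      exact Finset.mem_coe.2 (Finset.mem_image_of_mem _ hS.1))]
    push_cast
    refine Finset.sum_congr rfl fun e _ => ?_
    congr 2
    ext S
    simp only [Finset.mem_filter]
    tauto
  have hKP : ∀ e ∈ T, KP I K X z H k V e.1 e.2 := by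
    intro e he
    rw [hT, Finset.mem_image] at he
    obtain ⟨S, hS, rfl⟩ := he
    obtain ⟨f1, f2, f3⟩ := rr_facts hS
    exact (rr_iff hH f1 (inj_ph f2)).1 hS
  have hf1 := hfib fun S => Nd (sm z S) (la z S) ∧ Gd f S
  have hf2 := hfib fun S => Nd (sm z S) (la z S)
  have hf3 := hfib fun _ => True
  simp only [and_true, Finset.filter_true] at hf3
  rw [hf1, hf2, hf3, Finset.mul_sum, ← Finset.sum_sub_distrib]
  refine (Finset.abs_sum_le_sum_abs _ _).trans ?_
  have h3 : ∀ e ∈ T, |(((RR I K X z H k V).filter fun S => ky z H S = e ∧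
        (Nd (sm z S) (la z S) ∧ Gd f S)).card : ℝ) -
      c2 * (((RR I K X z H k V).filter fun S => ky z H S = e ∧
        Nd (sm z S) (la z S)).card : ℝ)| ≤
      2 * (1 / 2 : ℝ) ^ V * (((RR I K X z H k V).filter fun S => ky z H S = e).card : ℝ) +
      B * (X / ((∏ p ∈ e.1, p : ℕ) : ℝ)) := by
    intro e he
    obtain ⟨S₀, J⟩ := e
    have hk' := hKP _ he
    exact per_key hBOX hEQ hLA f hok hH hκ hk' (hb_box hok h1 hH hz hκ hκz)
  refine (Finset.sum_le_sum h3).trans ?_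
  rw [Finset.sum_add_distrib, ← Finset.mul_sum]
  refine add_le_add le_rfl ?_
  have hsub : T ⊆ (TT X) ×ˢ ((range N ×ˢ range 8).powerset.filter fun J => J.card ≤ k) := by
    intro e he
    have hk' := hKP e he
    rw [hT, Finset.mem_image] at he
    obtain ⟨S, hS, rfl⟩ := he
    obtain ⟨f1, f2, f3⟩ := rr_facts hS
    rw [Finset.mem_product, Finset.mem_filter, Finset.mem_powerset]
    refine ⟨mem_TT (fun q hq => cl_prime (hk'.cl q hq)) ?_, ?_, ?_⟩
    · refine le_trans ?_ f3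
      exact Nat.le_of_dvd (Finset.prod_pos fun p hp => (cl_prime (f1 p hp)).pos)
        (Finset.prod_dvd_prod_of_subset _ _ _ (Finset.filter_subset _ _))
    · intro e he
      unfold ky at he
      rw [Finset.mem_image] at he
      obtain ⟨q, hq, rfl⟩ := he
      have hqS := (Finset.mem_filter.1 hq).1
      have hq0 := (cl_prime (f1 q hqS)).pos
      have hqX : q ≤ X := by
        refine le_trans ?_ f3
        exact Nat.le_of_dvd (Finset.prod_pos fun p hp => (cl_prime (f1 p hp)).pos)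
          (Finset.dvd_prod_of_mem _ hqS)
      unfold ph
      rw [Finset.mem_product, Finset.mem_range, Finset.mem_range]
      refine ⟨?_, Nat.mod_lt _ (by norm_num)⟩
      have h3 : ((jj H q : ℕ) : ℝ) < N := by
        refine lt_of_le_of_lt (Nat.floor_le (mul_nonneg (Nat.cast_nonneg _)
          (Real.log_nonneg (by exact_mod_cast hq0)))) ?_
        refine lt_of_le_of_lt ?_ hN
        refine mul_le_mul_of_nonneg_left ?_ (Nat.cast_nonneg _)
        exact Real.log_le_log (by exact_mod_cast hq0) (by exact_mod_cast hqX)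
      exact_mod_cast h3
    · have := hk'.card
      omega
  refine (Finset.sum_le_sum_of_subset_of_nonneg hsub fun _ _ _ => by positivity).trans ?_
  rw [Finset.sum_product]
  simp only [Finset.sum_const, nsmul_eq_mul]
  rw [← Finset.mul_sum]
  have h4 : ((((range N ×ˢ range 8).powerset.filter fun J => J.card ≤ k).card : ℕ) : ℝ) ≤
      (9 * N + 9 : ℝ) ^ k := by
    have h5 := card_sub (range N ×ˢ range 8) k
    rw [Finset.card_product, Finset.card_range, Finset.card_range] at h5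
    calc ((((range N ×ˢ range 8).powerset.filter fun J => J.card ≤ k).card : ℕ) : ℝ) ≤
          (((N * 8 + 1) ^ k : ℕ) : ℝ) := by exact_mod_cast h5
      _ = (N * 8 + 1 : ℝ) ^ k := by push_cast; ring
      _ ≤ _ := by
        apply pow_le_pow_left₀ (by positivity)
        have : (0 : ℝ) ≤ N := Nat.cast_nonneg _
        linarith
  have h5 : ∑ S ∈ TT X, B * (X / ((∏ p ∈ S, p : ℕ) : ℝ)) ≤ B * (X * (1 + Real.log X)) := by
    have h6 : ∀ S ∈ TT X, B * ((X : ℝ) / ((∏ p ∈ S, p : ℕ) : ℝ)) =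
        B * X * (1 / ((∏ p ∈ S, p : ℕ) : ℝ)) := by
      intro S _
      ring
    rw [Finset.sum_congr rfl h6, ← Finset.mul_sum]
    have h7 := mul_le_mul_of_nonneg_left (harm_TT X) (mul_nonneg hB0 (Nat.cast_nonneg X))
    refine h7.trans (le_of_eq ?_)
    ring
  have h6 : 0 ≤ ∑ S ∈ TT X, B * ((X : ℝ) / ((∏ p ∈ S, p : ℕ) : ℝ)) :=
    Finset.sum_nonneg fun _ _ => by positivity
  rw [mul_assoc]
  gcongr

end Pool.Agent.Y703.CQ.K302
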